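import Pool.Agent.H500.TH.Stm
import Pool.Agent.H500.AS.All

set_option autoImplicit false
set_option linter.unusedSectionVars false

/-!
# Project TH, part D1: the structure at `l` of the characters of order dividing `m`
(adapted from `Pool/Agent/H294/R2/Str.lean`)
-/

namespace Pool.Agent.H382.TH.TStr

open NumberField IsDedekindDomain Filter Topology Polynomial
open Pool.Agent.W401.Cheb (GK IsFrob IsInert dens)
open Pool.Agent.H500.HC (InRay IsRayChar TotPos QBar ZBar em typ jz)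
open Pool.Agent.H500.R2
open Pool.Agent.H500.TH

/-! ### Transport of the values -/

section transport

variable {k : Type} [Field k] {m : ℕ} [NeZero m]

open scoped Classical in
/-- transport of the values along an isomorphism of the groups of the `m`-th roots of unity -/
noncomputable def tr (ι : rootsOfUnity m ℂ ≃* rootsOfUnity m k) (z : ℂ) : k :=
  if h : z ^ m = 1 then ((ι (rootsOfUnity.mkOfPowEq z h) : kˣ) : k) else 0

variable (ι : rootsOfUnity m ℂ ≃* rootsOfUnity m k)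

theorem tr_of {z : ℂ} (h : z ^ m = 1) :
    tr ι z = ((ι (rootsOfUnity.mkOfPowEq z h) : kˣ) : k) := by
  unfold tr
  rw [dif_pos h]

theorem tr_zero : tr ι 0 = 0 := by
  unfold tr
  rw [dif_neg]
  rw [zero_pow (NeZero.ne m)]
  exact zero_ne_one

theorem tr_one : tr ι 1 = 1 := by
  rw [tr_of ι (one_pow m)]
  have h : rootsOfUnity.mkOfPowEq (1 : ℂ) (one_pow m) = 1 := by
    apply Subtype.ext
    apply Units.ext
    rw [rootsOfUnity.val_mkOfPowEq_coe]
    rfl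
  rw [h, map_one]
  rfl

theorem tr_mul {z w : ℂ} (hz : z ^ m = 1) (hw : w ^ m = 1) : tr ι (z * w) = tr ι z * tr ι w := by
  have hzw : (z * w) ^ m = 1 := by rw [mul_pow, hz, hw, mul_one]
  rw [tr_of ι hz, tr_of ι hw, tr_of ι hzw]
  have h : rootsOfUnity.mkOfPowEq (z * w) hzw =
      rootsOfUnity.mkOfPowEq z hz * rootsOfUnity.mkOfPowEq w hw := by
    apply Subtype.ext
    apply Units.ext
    rw [rootsOfUnity.val_mkOfPowEq_coe]
    show _ = ((rootsOfUnity.mkOfPowEq z hz : ℂˣ) : ℂ) * ((rootsOfUnity.mkOfPowEq w hw : ℂˣ) : ℂ)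
    rw [rootsOfUnity.val_mkOfPowEq_coe, rootsOfUnity.val_mkOfPowEq_coe]
  rw [h, map_mul]
  rfl

theorem tr_ne {z : ℂ} (hz : z ^ m = 1) : tr ι z ≠ 0 := by
  rw [tr_of ι hz]
  exact Units.ne_zero _

theorem tr_pow {z : ℂ} (hz : z ^ m = 1) : tr ι z ^ m = 1 := by
  rw [tr_of ι hz, ← Units.val_pow_eq_pow_val]
  have h := (mem_rootsOfUnity m _).1 (ι (rootsOfUnity.mkOfPowEq z hz)).2
  rw [h, Units.val_one]

theorem tr_eq_one {z : ℂ} (hz : z ^ m = 1) (h : tr ι z = 1) : z = 1 := by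
  rw [tr_of ι hz] at h
  have h1 : ι (rootsOfUnity.mkOfPowEq z hz) = 1 := by
    apply Subtype.ext
    apply Units.ext
    rw [h]
    rfl
  rw [map_eq_one_iff ι ι.injective] at h1
  have h2 := rootsOfUnity.val_mkOfPowEq_coe (n := m) z hz
  rw [h1] at h2
  exact h2.symm

/-- the transported character -/
noncomputable def trChar {R : Type} [MonoidWithZero R] (χ : R →*₀ ℂ)
    (hχ : ∀ a, χ a ≠ 0 → χ a ^ m = 1) : R →*₀ k where
  toFun a := tr ι (χ a)
  map_zero' := by rw [map_zero, tr_zero]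
  map_one' := by rw [map_one, tr_one]
  map_mul' a b := by
    by_cases ha : χ a = 0
    · rw [map_mul, ha, zero_mul, tr_zero, zero_mul]
    · by_cases hb : χ b = 0
      · rw [map_mul, hb, mul_zero, tr_zero, mul_zero]
      · rw [map_mul, tr_mul ι (hχ a ha) (hχ b hb)]

theorem trChar_apply {R : Type} [MonoidWithZero R] (χ : R →*₀ ℂ)
    (hχ : ∀ a, χ a ≠ 0 → χ a ^ m = 1) (a : R) : trChar ι χ hχ a = tr ι (χ a) := rfl

theorem trChar_ne {R : Type} [MonoidWithZero R] (χ : R →*₀ ℂ)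
    (hχ : ∀ a, χ a ≠ 0 → χ a ^ m = 1) (a : R) : trChar ι χ hχ a ≠ 0 ↔ χ a ≠ 0 := by
  rw [trChar_apply]
  constructor
  · intro h h0
    rw [h0, tr_zero] at h
    exact h rfl
  · intro h
    exact tr_ne ι (hχ a h)

end transport


/-! ### Fields -/

section fields

variable {E : Type} [Field E] [NumberField E]

theorem exists_k (lam : HeightOneSpectrum (𝓞 E)) :
    ∃ (k : Type) (_ : Field k) (_ : IsAlgClosed k) (φ : 𝓞 E →+* k),
      RingHom.ker φ = lam.asIdeal := by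
  have hmax : lam.asIdeal.IsMaximal := lam.isMaximal
  let _ : Field (𝓞 E ⧸ lam.asIdeal) := Ideal.Quotient.field lam.asIdeal
  refine ⟨AlgebraicClosure (𝓞 E ⧸ lam.asIdeal), inferInstance, inferInstance,
    (algebraMap (𝓞 E ⧸ lam.asIdeal) (AlgebraicClosure (𝓞 E ⧸ lam.asIdeal))).comp
      (Ideal.Quotient.mk lam.asIdeal), ?_⟩
  rw [RingHom.ker_comp_of_injective _ (RingHom.injective _), Ideal.mk_ker]

end fields

section positive

variable {K : Type} [Field K] [NumberField K]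

/-- totally positive translates -/
theorem exists_pos (y : 𝓞 K) (q : ℕ) (hq : 0 < q) :
    ∃ n : ℕ, y + ((n * q : ℕ) : 𝓞 K) ≠ 0 ∧ TotPos (y + ((n * q : ℕ) : 𝓞 K)) := by
  classical
  let n₀ : ℕ := ∑ τ : K →+* ℝ, (⌈|τ (y : K)|⌉₊ + 1)
  have hpos : ∀ n : ℕ, n₀ ≤ n → TotPos (y + ((n * q : ℕ) : 𝓞 K)) := by
    intro n hn τ
    have h1 : ⌈|τ (y : K)|⌉₊ + 1 ≤ n₀ :=
      Finset.single_le_sum (f := fun τ : K →+* ℝ => ⌈|τ (y : K)|⌉₊ + 1)
        (fun _ _ => Nat.zero_le _) (Finset.mem_univ τ)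
    have h2 : |τ (y : K)| ≤ (⌈|τ (y : K)|⌉₊ : ℝ) := Nat.le_ceil _
    have h3 : (⌈|τ (y : K)|⌉₊ : ℝ) + 1 ≤ ((n * q : ℕ) : ℝ) := by
      have h4 : ⌈|τ (y : K)|⌉₊ + 1 ≤ n * q :=
        (h1.trans hn).trans (Nat.le_mul_of_pos_right n hq)
      exact_mod_cast h4
    have h5 : τ ((y + ((n * q : ℕ) : 𝓞 K) : 𝓞 K) : K) = τ (y : K) + ((n * q : ℕ) : ℝ) := by
      have h7 : ((y + ((n * q : ℕ) : 𝓞 K) : 𝓞 K) : K) = (y : K) + ((n * q : ℕ) : K) := by
        push_cast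
        rfl
      rw [h7, map_add, map_natCast]
    rw [h5]
    have h6 := neg_abs_le (τ (y : K))
    linarith
  by_cases h0 : y + ((n₀ * q : ℕ) : 𝓞 K) = 0
  · refine ⟨n₀ + 1, fun h1 => ?_, hpos _ (Nat.le_succ _)⟩
    have h2 : ((q : ℕ) : 𝓞 K) = 0 := by
      have h3 : y + (((n₀ + 1) * q : ℕ) : 𝓞 K) = (y + ((n₀ * q : ℕ) : 𝓞 K)) + (q : 𝓞 K) := by
        push_cast
        ring
      rw [h3, h0, zero_add] at h1
      exact h1
    exact hq.ne' (Nat.cast_eq_zero.1 h2)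
  · exact ⟨n₀, h0, hpos _ le_rfl⟩


end positive

/-! ### Divisibility -/

theorem divis {S : Type} [Fintype S] (m : ℕ) (hm : 0 < m) (n a : S → ℕ) (hn : ∀ s, 0 < n s)
    (h : ∀ s, n s ∣ m * a s) (h0 : ¬ ∀ s, n s ∣ a s) :
    ∃ (r D : ℕ) (c q : S → ℕ), r.Prime ∧ r ∣ m ∧ (∃ s, ¬ r ∣ c s) ∧ (∀ s, c s < r) ∧
      (∀ s, c s ≠ 0 → r ∣ n s ∧ a s ≠ 0) ∧
      ∀ s, D * a s = c s * (n s / r) + n s * q s := by
  classical
  have hex : ∃ D : ℕ, D ∣ m ∧ 0 < D ∧ ∀ s, n s ∣ D * a s := ⟨m, dvd_rfl, hm, h⟩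
  set D := Nat.find hex with hD
  obtain ⟨hDm, hD0, hDa⟩ := Nat.find_spec hex
  rw [← hD] at hDm hD0 hDa
  have hmin : ∀ D' : ℕ, D' < D → ¬ (D' ∣ m ∧ 0 < D' ∧ ∀ s, n s ∣ D' * a s) := fun D' hD' =>
    Nat.find_min hex hD'
  have hD1 : D ≠ 1 := by
    intro h1
    apply h0
    intro s
    have := hDa s
    rwa [h1, one_mul] at this
  obtain ⟨r, hr, hrD⟩ := Nat.exists_prime_and_dvd hD1
  obtain ⟨D', hD'⟩ := hrD
  have hD'0 : 0 < D' := by
    rcases Nat.eq_zero_or_pos D' with h1 | h1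
    · rw [h1, mul_zero] at hD'
      omega
    · exact h1
  have hlt : D' < D := by
    rw [hD']
    have := hr.two_le
    nlinarith
  have hnot := hmin D' hlt
  have hnot' : ∃ s, ¬ n s ∣ D' * a s := by
    by_contra hcon
    push Not at hcon
    exact hnot ⟨(Dvd.intro_left r hD'.symm).trans hDm, hD'0, hcon⟩
  choose b hb using hDa
  refine ⟨r, D', fun s => b s % r, fun s => b s / r, hr, (Dvd.intro D' hD'.symm).trans hDm, ?_,
    fun s => Nat.mod_lt _ hr.pos, ?_, ?_⟩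
  · obtain ⟨s, hs⟩ := hnot'
    refine ⟨s, fun hcs => hs ?_⟩
    have h1 : r ∣ b s := (Nat.dvd_mod_iff (dvd_refl r)).1 hcs
    obtain ⟨u, hu⟩ := h1
    refine ⟨u, ?_⟩
    have h2 := hb s
    rw [hD', hu] at h2
    have h3 : r * (D' * a s) = r * (n s * u) := by rw [← mul_assoc, h2]; ring
    exact Nat.eq_of_mul_eq_mul_left hr.pos h3
  · intro s hs
    have h1 : ¬ r ∣ b s := fun h2 => hs (Nat.mod_eq_zero_of_dvd h2)
    have h2 := hb s
    rw [hD'] at h2
    constructor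
    · have h3 : r ∣ n s * b s := ⟨D' * a s, by rw [← h2, mul_assoc]⟩
      exact (hr.dvd_mul.1 h3).resolve_right h1
    · intro h3
      rw [h3, mul_zero] at h2
      rcases Nat.mul_eq_zero.1 h2.symm with h4 | h4
      · exact absurd h4 (hn s).ne'
      · exact h1 (h4 ▸ dvd_zero r)
  · intro s
    have h2 := hb s
    rw [hD'] at h2
    have h3 : b s = b s % r + r * (b s / r) := (Nat.mod_add_div _ _).symm
    apply Nat.eq_of_mul_eq_mul_left hr.pos
    by_cases hc : b s % r = 0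
    · show r * (D' * a s) = r * (b s % r * (n s / r) + n s * (b s / r))
      rw [hc, zero_add] at h3
      rw [hc, zero_mul, zero_add, ← mul_assoc, h2]
      conv_lhs => rw [h3]
      ring
    · have h4 : r ∣ n s := by
        have h5 : ¬ r ∣ b s := fun h6 => hc (Nat.mod_eq_zero_of_dvd h6)
        have h6 : r ∣ n s * b s := ⟨D' * a s, by rw [← h2, mul_assoc]⟩
        exact (hr.dvd_mul.1 h6).resolve_right h5
      obtain ⟨n', hn'⟩ := h4
      show r * (D' * a s) = r * (b s % r * (n s / r) + n s * (b s / r))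
      have h5 : n s / r = n' := by rw [hn']; exact Nat.mul_div_cancel_left _ hr.pos
      rw [h5, ← mul_assoc, h2]
      conv_lhs => rw [h3, hn']
      rw [hn']
      ring

/-! ### Places -/

section places

variable {K : Type} [Field K] [NumberField K]

/-- an element of the ray modulo `M` with a given class modulo a place `w` above `l`, and `≡ 1` modulo the other
places above `l` -/
theorem exists_ray (w : Ideal (𝓞 K)) (hw : w.IsMaximal) (hw0 : w ≠ ⊥) (l M : ℕ) (hl : l.Prime)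
    (hlw : (l : 𝓞 K) ∈ w) (hM : 0 < M) (hlM : ¬ l ∣ M) (g : 𝓞 K) :
    ∃ y : 𝓞 K, InRay M y ∧ y - g ∈ w ∧
      ∀ w' : Ideal (𝓞 K), w'.IsMaximal → (l : 𝓞 K) ∈ w' → w' ≠ w → y - 1 ∈ w' := by
  have hl0 : Ideal.span {(l : 𝓞 K)} ≠ 0 := by
    rw [Ne, Ideal.zero_eq_bot, Ideal.span_singleton_eq_bot]
    exact Nat.cast_ne_zero.2 hl.ne_zero
  have hwu : ¬ IsUnit w := fun h => hw.ne_top (by rwa [Ideal.isUnit_iff] at h)
  have hfin : FiniteMultiplicity w (Ideal.span {(l : 𝓞 K)}) :=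
    FiniteMultiplicity.of_not_isUnit hwu hl0
  obtain ⟨j, C, hC, hwC⟩ : ∃ (j : ℕ) (C : Ideal (𝓞 K)), Ideal.span {(l : 𝓞 K)} = w ^ j * C ∧ ¬ w ∣ C :=
    ⟨_, hfin.exists_eq_pow_mul_and_not_dvd⟩
  have hcopC : w ⊔ C = ⊤ := by
    have h1 : ¬ C ≤ w := fun h => hwC (Ideal.dvd_iff_le.2 h)
    obtain ⟨x, hx1, hx2⟩ := Set.not_subset.1 h1
    refine hw.out.2 _ (lt_of_le_of_ne le_sup_left fun h => hx2 ?_)
    have h3 : x ∈ w ⊔ C := Ideal.mem_sup_right hx1
    rwa [← h] at h3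
  have hcopM : w ⊔ Ideal.span {(M : 𝓞 K)} = ⊤ := by
    rw [Ideal.eq_top_iff_one]
    have h2 : IsCoprime (l : ℤ) (M : ℤ) := Nat.isCoprime_iff_coprime.2
      ((Nat.Prime.coprime_iff_not_dvd hl).2 hlM)
    obtain ⟨a, b, hab⟩ := h2
    have h3 : (1 : 𝓞 K) = (a : 𝓞 K) * (l : 𝓞 K) + (b : 𝓞 K) * (M : 𝓞 K) := by
      have := congrArg (Int.cast : ℤ → 𝓞 K) hab
      push_cast at this
      exact this.symm
    rw [h3]
    exact Submodule.add_mem_sup (w.mul_mem_left _ hlw)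
      (Ideal.mul_mem_left _ _ (Ideal.mem_span_singleton_self _))
  have hcop : w ⊔ (C * Ideal.span {(M : 𝓞 K)}) = ⊤ :=
    (Ideal.sup_mul_eq_of_coprime_left hcopC).trans hcopM
  obtain ⟨a, ha, b, hb, hab⟩ := Submodule.mem_sup.1 ((Ideal.eq_top_iff_one _).1 hcop)
  -- `a ∈ w`, `b ∈ C * (M)`, `a + b = 1`
  have hab' : a = 1 - b := by rw [← hab]; ring
  obtain ⟨n, hn0, hn⟩ := exists_pos (g * b + a) (M * l) (Nat.mul_pos hM hl.pos)
  have hlm : ((n * (M * l) : ℕ) : 𝓞 K) = (n : 𝓞 K) * (M : 𝓞 K) * (l : 𝓞 K) := by push_cast; ring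
  have hbM : (M : 𝓞 K) ∣ b := by
    rw [← Ideal.mem_span_singleton]
    exact Ideal.mul_le_right hb
  refine ⟨_, ⟨hn0, ?_, hn⟩, ?_, ?_⟩
  · have e : g * b + a + ((n * (M * l) : ℕ) : 𝓞 K) - 1 =
        (g - 1) * b + (M : 𝓞 K) * ((n : 𝓞 K) * (l : 𝓞 K)) := by
      rw [hlm, hab']; ring
    rw [e]
    exact dvd_add (hbM.mul_left _) (dvd_mul_right _ _)
  · have e : g * b + a + ((n * (M * l) : ℕ) : 𝓞 K) - g =
        (1 - g) * a + ((n : 𝓞 K) * (M : 𝓞 K)) * (l : 𝓞 K) := by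
      rw [hlm, hab']; ring
    rw [e]
    exact w.add_mem (w.mul_mem_left _ ha) (w.mul_mem_left _ hlw)
  · intro w' hw' hlw' hne
    have hbw : b ∈ w' := by
      have h1 : b ∈ C := Ideal.mul_le_left hb
      have h2 : w ^ j * C ≤ w' := by
        rw [← hC, Ideal.span_singleton_le_iff_mem]
        exact hlw'
      rcases (hw'.isPrime.mul_le).1 h2 with h3 | h3
      · exfalso
        have h4 : w ≤ w' := hw'.isPrime.le_of_pow_le h3
        exact hne (hw.eq_of_le hw'.ne_top h4).symm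
      · exact h3 h1
    have e : g * b + a + ((n * (M * l) : ℕ) : 𝓞 K) - 1 =
        (g - 1) * b + ((n : 𝓞 K) * (M : 𝓞 K)) * (l : 𝓞 K) := by
      rw [hlm, hab']; ring
    rw [e]
    exact w'.add_mem (w'.mul_mem_left _ hbw) (w'.mul_mem_left _ hlw')

/-- a maximal ideal: Fermat's little theorem -/
theorem fermat {w : Ideal (𝓞 K)} (hw : w.IsMaximal) (hw0 : w ≠ ⊥) {k : Type} [Field k]
    {ψ : 𝓞 K →+* k} (hψ : RingHom.ker ψ = w) {y : 𝓞 K} (hy : y ∉ w) :
    ψ y ^ (Ideal.absNorm w - 1) = 1 := by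
  let _ : Field (𝓞 K ⧸ w) := Ideal.Quotient.field w
  have hfin : Finite (𝓞 K ⧸ w) := Ideal.finiteQuotientOfFreeOfNeBot w hw0
  have _ : Fintype (𝓞 K ⧸ w) := Fintype.ofFinite _
  have hc : Nat.card (𝓞 K ⧸ w) = Ideal.absNorm w := rfl
  have h1 : (Ideal.Quotient.mk w y) ^ (Ideal.absNorm w - 1) = 1 := by
    have h2 : Ideal.Quotient.mk w y ≠ 0 := by
      rwa [Ne, Ideal.Quotient.eq_zero_iff_mem]
    have h3 := FiniteField.pow_card_sub_one_eq_one _ h2
    rwa [← Nat.card_eq_fintype_card, hc] at h3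
  have h4 : y ^ (Ideal.absNorm w - 1) - 1 ∈ w := by
    rw [← Ideal.Quotient.eq_zero_iff_mem, map_sub, map_pow, map_one, h1, sub_self]
  have h5 : ψ (y ^ (Ideal.absNorm w - 1) - 1) = 0 := by
    rw [← RingHom.mem_ker, hψ]
    exact h4
  rw [map_sub, map_pow, map_one, sub_eq_zero] at h5
  exact h5

/-- a generator modulo a maximal ideal -/
theorem exists_gen {w : Ideal (𝓞 K)} (hw : w.IsMaximal) (hw0 : w ≠ ⊥) :
    ∃ g : 𝓞 K, g ∉ w ∧ ∀ j : ℕ, g ^ j - 1 ∈ w → Ideal.absNorm w - 1 ∣ j := by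
  let _ : Field (𝓞 K ⧸ w) := Ideal.Quotient.field w
  have hfin : Finite (𝓞 K ⧸ w) := Ideal.finiteQuotientOfFreeOfNeBot w hw0
  have _ : Fintype (𝓞 K ⧸ w) := Fintype.ofFinite _
  have hc : Nat.card (𝓞 K ⧸ w) = Ideal.absNorm w := rfl
  obtain ⟨u, hu⟩ := IsCyclic.exists_generator (α := (𝓞 K ⧸ w)ˣ)
  have hord : orderOf u = Ideal.absNorm w - 1 := by
    rw [orderOf_eq_card_of_forall_mem_zpowers hu, Nat.card_units, hc]
  obtain ⟨g, hg⟩ := Ideal.Quotient.mk_surjective (I := w) (u : 𝓞 K ⧸ w)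
  refine ⟨g, ?_, fun j hj => ?_⟩
  · rw [← Ideal.Quotient.eq_zero_iff_mem, hg]
    exact u.ne_zero
  · rw [← hord]
    refine orderOf_dvd_of_pow_eq_one ?_
    apply Units.ext
    rw [Units.val_pow_eq_pow_val, ← hg, Units.val_one]
    rw [← Ideal.Quotient.eq_zero_iff_mem, map_sub, map_pow, map_one, sub_eq_zero] at hj
    exact hj

/-- the norm is a power of `l` -/
theorem exists_deg {w : Ideal (𝓞 K)} (hw : w.IsMaximal) (hw0 : w ≠ ⊥) {l : ℕ} (hl : l.Prime)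
    (hlw : (l : 𝓞 K) ∈ w) : ∃ e : ℕ, 0 < e ∧ Ideal.absNorm w = l ^ e := by
  let _ : Field (𝓞 K ⧸ w) := Ideal.Quotient.field w
  have hfin : Finite (𝓞 K ⧸ w) := Ideal.finiteQuotientOfFreeOfNeBot w hw0
  have _ : Fintype (𝓞 K ⧸ w) := Fintype.ofFinite _
  have hc : Nat.card (𝓞 K ⧸ w) = Ideal.absNorm w := rfl
  have h0 : ((l : ℕ) : 𝓞 K ⧸ w) = 0 := by
    have h1 : (Ideal.Quotient.mk w) (l : 𝓞 K) = 0 := Ideal.Quotient.eq_zero_iff_mem.2 hlw
    rwa [map_natCast] at h1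
  have hchar : CharP (𝓞 K ⧸ w) l := (CharP.charP_iff_prime_eq_zero hl).2 h0
  obtain ⟨n, -, hn⟩ := FiniteField.card (𝓞 K ⧸ w) l
  refine ⟨n, n.pos, ?_⟩
  rw [← hc, Nat.card_eq_fintype_card, hn]

end places

/-- **PART D1** -/
theorem main : S_Plc → S_TExp → S_TStr := by
  intro _ hExp K F _ _ _ _ hcard N m hN hm
  classical
  obtain ⟨B2, hB2⟩ := hExp K F hcard
  refine ⟨max B2 (max N m), ?_⟩
  intro L l hl hlL hB θ hθo hθm hθu
  have hb2 : B2 < l := (le_max_left _ _).trans_lt hB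
  have hb3 : N < l := ((le_max_left _ _).trans (le_max_right _ _)).trans_lt hB
  have hb4 : m < l := ((le_max_right _ _).trans (le_max_right _ _)).trans_lt hB
  have hexp := hB2 L l hl hlL hb2
  have hlN : ¬ l ∣ N := fun h => by
    have := Nat.le_of_dvd (by omega) h
    omega
  have hlm : ¬ l ∣ m := fun h => by
    have := Nat.le_of_dvd hm h
    omega
  have hNp : 0 < N ^ (m + 2) := by positivity
  have hlNp : ¬ l ∣ N ^ (m + 2) := fun h => hlN (hl.dvd_of_dvd_pow h)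
  obtain ⟨k, _, _, φ, hφ⟩ := exists_k L
  have hlk : (l : k) = 0 := by
    have h1 := hlL
    rw [← hφ, RingHom.mem_ker, map_natCast] at h1
    exact h1
  have hchar : CharP k l := (CharP.charP_iff_prime_eq_zero hl).2 hlk
  have hmk : (m : k) ≠ 0 := fun h => hlm ((CharP.cast_eq_zero_iff k l m).1 h)
  have _ : NeZero m := ⟨hm.ne'⟩
  have _ : NeZero (m : k) := ⟨hmk⟩
  obtain ⟨ι⟩ : Nonempty (rootsOfUnity m ℂ ≃* rootsOfUnity m k) := by
    have h1 := HasEnoughRootsOfUnity.natCard_rootsOfUnity ℂ m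
    have h2 := HasEnoughRootsOfUnity.natCard_rootsOfUnity k m
    exact ⟨mulEquivOfCyclicCardEq (h1.trans h2.symm)⟩
  -- the character of the ideals
  obtain ⟨χ, e, hχ1, hχ2, hχ3, hχ4⟩ := Pool.Agent.H500.AS.all_Bridge K (N * l) ℂ θ
    (Nat.mul_ne_zero (by omega) hl.ne_zero) hθo (fun v hv σ hσ => hθu v hv σ hσ)
  have hχm : ∀ a, χ a ≠ 0 → χ a ^ m = 1 := by
    intro a ha
    obtain ⟨σ, hσ⟩ := hχ4 a ha
    rw [hσ, ← Units.val_pow_eq_pow_val, hθm, Units.val_one]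
  refine ⟨χ, ⟨hχ1, hχ3⟩, ?_⟩
  -- its image in `k`
  obtain ⟨χ', hχ'⟩ : ∃ χ' : Ideal (𝓞 K) →*₀ k, χ' = trChar ι χ hχm := ⟨_, rfl⟩
  have hχ'1 : ∀ a, χ' a = tr ι (χ a) := fun a => by rw [hχ', trChar_apply]
  have hχ'0 : ∀ a, χ' a ≠ 0 ↔ χ a ≠ 0 := fun a => by rw [hχ', trChar_ne]
  have hray : IsRayChar (N ^ (m + 2) * l) χ' := by
    refine Pool.Agent.H500.AS.all_Mod K N l e m k χ' hN hl hlN hlk ?_ ?_ ?_
    · intro 𝔞 h𝔞
      rw [hχ'0]
      exact hχ1 𝔞 h𝔞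
    · intro x hx
      rw [hχ'1, hχ2 x hx, tr_one]
    · intro 𝔞 h𝔞
      rw [hχ'0] at h𝔞
      refine ⟨m, ?_, fun r hr _ hdvd => ?_⟩
      · rw [hχ'1]
        exact tr_pow ι (hχm _ h𝔞)
      · have h1 := Nat.le_of_dvd hm hdvd
        have h2 : m + 1 < r ^ (m + 1) := Nat.lt_pow_self hr.one_lt
        omega
  obtain ⟨a, hainj, ha⟩ := hexp (N ^ (m + 2)) hNp hlNp k φ hφ χ' hray
  -- the places below `L`
  obtain ⟨w, hw⟩ : ∃ w : (K →+* F) → Ideal (𝓞 K),
      w = fun t => L.asIdeal.comap (RingOfIntegers.mapRingHom t) := ⟨_, rfl⟩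
  have hwt : ∀ t, L.asIdeal.comap (RingOfIntegers.mapRingHom t) = w t := fun t => by rw [hw]
  have hwl : ∀ t, (l : 𝓞 K) ∈ w t := fun t => by
    rw [← hwt, Ideal.mem_comap, map_natCast]
    exact hlL
  have hw0 : ∀ t, w t ≠ ⊥ := fun t h => by
    have h1 := hwl t
    rw [h, Ideal.mem_bot] at h1
    exact Nat.cast_ne_zero.2 hl.ne_zero h1
  have hwp : ∀ t, (w t).IsPrime := fun t => by
    rw [← hwt]
    exact Ideal.comap_isPrime _ _
  have hwm : ∀ t, (w t).IsMaximal := fun t => (hwp t).isMaximal (hw0 t)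
  have hker : ∀ t : K →+* F, RingHom.ker (φ.comp (RingOfIntegers.mapRingHom t)) = w t := fun t => by
    rw [← hwt, ← hφ, RingHom.comap_ker]
  have hmem : ∀ (t : K →+* F) (x : 𝓞 K), φ (em t x) = 0 ↔ x ∈ w t := fun t x => by
    rw [← hker t, RingHom.mem_ker]
    rfl
  have hems : ∀ (t : K →+* F) (x y : 𝓞 K), em t (x - y) = em t x - em t y := fun t x y =>
    map_sub _ _ _
  have hemp : ∀ (t : K →+* F) (x : 𝓞 K) (j : ℕ), em t (x ^ j) = em t x ^ j := fun t x j =>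
    map_pow _ _ _
  have hem1 : ∀ t : K →+* F, em t (1 : 𝓞 K) = 1 := fun t => map_one _
  have hfer : ∀ (t : K →+* F) (x : 𝓞 K), x ∉ w t → φ (em t x) ^ (Ideal.absNorm (w t) - 1) = 1 :=
    fun t x hx => fermat (hwm t) (hw0 t) (hker t) hx
  choose! d hd0 hd using fun t : K →+* F => exists_deg (hwm t) (hw0 t) hl (hwl t)
  have hnt : ∀ t, 0 < l ^ d t - 1 := fun t => by
    have h1 : 1 < l ^ d t := Nat.one_lt_pow (hd0 t).ne' hl.one_lt
    omega
  -- nonvanishing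
  have hcop : ∀ x : 𝓞 K, IsCoprime (Ideal.span {x}) (Ideal.span {(l : 𝓞 K)}) → ∀ t, x ∉ w t := by
    intro x hx t hxt
    have h1 : Ideal.span {x} ⊔ Ideal.span {(l : 𝓞 K)} = ⊤ := Ideal.isCoprime_iff_sup_eq.1 hx
    have h2 : Ideal.span {x} ⊔ Ideal.span {(l : 𝓞 K)} ≤ w t := by
      rw [sup_le_iff, Ideal.span_singleton_le_iff_mem, Ideal.span_singleton_le_iff_mem]
      exact ⟨hxt, hwl t⟩
    rw [h1, top_le_iff] at h2
    exact (hwm t).ne_top h2
  have hχne : ∀ x : 𝓞 K, InRay (N ^ (m + 2)) x →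
      IsCoprime (Ideal.span {x}) (Ideal.span {(l : 𝓞 K)}) → χ (Ideal.span {x}) ≠ 0 := by
    intro x hx hxl
    rw [← hχ'0, ha x hx hxl]
    exact Finset.prod_ne_zero_iff.2 fun σ _ => pow_ne_zero _ fun h => hcop x hxl σ ((hmem σ x).1 h)
  -- the exponents
  have hdiv : ∀ t, l ^ d t - 1 ∣ m * a t := by
    intro t
    by_cases hat : a t = 0
    · rw [hat, mul_zero]
      exact dvd_zero _
    obtain ⟨g, hg0, hg1⟩ := exists_gen (hwm t) (hw0 t)
    obtain ⟨y, hy1, hy2, hy3⟩ := exists_ray (w t) (hwm t) (hw0 t) l (N ^ (m + 2)) hl (hwl t) hNp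
      hlNp g
    have hyl : IsCoprime (Ideal.span {y}) (Ideal.span {(l : 𝓞 K)}) := by
      rw [Ideal.isCoprime_iff_sup_eq]
      by_contra hne
      obtain ⟨w', hw', hle⟩ := Ideal.exists_le_maximal _ hne
      rw [sup_le_iff, Ideal.span_singleton_le_iff_mem, Ideal.span_singleton_le_iff_mem] at hle
      by_cases hww : w' = w t
      · subst hww
        apply hg0
        have e1 : g = y - (y - g) := by ring
        rw [e1]
        exact Ideal.sub_mem _ hle.1 hy2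
      · have h1 := hy3 w' hw' hle.2 hww
        apply hw'.ne_top
        rw [Ideal.eq_top_iff_one]
        have e1 : (1 : 𝓞 K) = y - (y - 1) := by ring
        rw [e1]
        exact Ideal.sub_mem _ hle.1 h1
    have h5 := ha y hy1 hyl
    have h6 : ∏ s, φ (em s y) ^ a s = φ (em t g) ^ a t := by
      rw [Finset.prod_eq_single t]
      · congr 1
        have h7 : φ (em t (y - g)) = 0 := (hmem t _).2 hy2
        rw [hems, map_sub, sub_eq_zero] at h7
        exact h7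
      · intro s _ hs
        by_cases has : a s = 0
        · rw [has, pow_zero]
        · have hne : w s ≠ w t := fun h => hs (hainj s t has hat (by rw [hwt, hwt, h]))
          have h7 : φ (em s (y - 1)) = 0 := (hmem s _).2 (hy3 (w s) (hwm s) (hwl s) hne)
          rw [hems, map_sub, hem1, map_one, sub_eq_zero] at h7
          rw [h7, one_pow]
      · intro h
        exact absurd (Finset.mem_univ t) h
    rw [h6] at h5
    have h7 : χ' (Ideal.span {y}) ^ m = 1 := by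
      rw [hχ'1]
      exact tr_pow ι (hχm _ (hχne y hy1 hyl))
    rw [h5, ← pow_mul, mul_comm] at h7
    rw [← hd t]
    apply hg1
    rw [← hmem, hems, map_sub, hemp, map_pow, hem1, map_one, h7, sub_self]
  by_cases hall : ∀ t, l ^ d t - 1 ∣ a t
  · left
    intro x hx hxl
    have h1 := ha x hx hxl
    have h2 : ∏ t, φ (em t x) ^ a t = 1 := by
      refine Finset.prod_eq_one fun t _ => ?_
      obtain ⟨b, hb⟩ := hall t
      rw [hb, pow_mul, ← hd t, hfer t x (hcop x hxl t), one_pow]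
    rw [h2, hχ'1] at h1
    exact tr_eq_one ι (hχm _ (hχne x hx hxl)) h1
  · right
    obtain ⟨r, D, c, q, hr, hrm, hc1, hc2, hc3, hac⟩ :=
      divis m hm (fun t => l ^ d t - 1) a hnt hdiv hall
    refine ⟨r, c, d, hr, hrm, ⟨hc1, hc2, fun t => ?_, fun t ht => (hc3 t ht).1, ?_⟩, ?_⟩
    · rw [hwt, hd]
    · intro t t' ht ht'
      exact hainj t t' (hc3 t ht).2 (hc3 t' ht').2
    · intro x hx hxl hx1
      have h1 := ha x hx hxl
      rw [hχ'1, hx1, tr_one] at h1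
      rw [← hφ, RingHom.mem_ker, map_sub, map_one, map_prod, sub_eq_zero]
      have h3 : (∏ t, φ (em t x) ^ a t) ^ D = 1 := by rw [← h1, one_pow]
      rw [← h3, ← Finset.prod_pow]
      refine Finset.prod_congr rfl fun t _ => ?_
      rw [map_pow, ← pow_mul, mul_comm (a t) D, hac t, pow_add, pow_mul _ (l ^ d t - 1) (q t), ← hd t,
        hfer t x (hcop x hxl t), one_pow, mul_one]

end Pool.Agent.H382.TH.TStr
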